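import Pool.Agent.L7h71.GB.Stm

/-!
# Existence of presentations
-/

set_option autoImplicit false

namespace Pool.Agent.L7h76.GB

open Set Function Pool.Agent.L7h71.GB
open Pool.Agent.L7h66.UA (XS XIso XYo XDich)

variable {a : ℕ → ℕ} {K : ℕ → Type} {𝓖 : FamG a K} {M : XS a K ℕ}

theorem exists_pr (h : Fine 𝓖 M) (y : ℕ) : ∃ b, Pr 𝓖 M b y := by
  classical
  obtain ⟨n, hn⟩ := h.bdd
  have hex : ∃ m : ℕ, ∃ b : Finset ℕ, Gd 𝓖 M b ∧ y ∈ b ∧ b.card = m := by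
    obtain ⟨b, h1, h2, _⟩ := hn y
    exact ⟨b.card, b, h1, h2, rfl⟩
  obtain ⟨b, h1, h2, h3⟩ := Nat.find_spec hex
  refine ⟨b, h1, h2, fun c hc hyc => ?_⟩
  have h4 : y ∈ b ∩ c := Finset.mem_inter.2 ⟨h2, hyc⟩
  have h5 : Gd 𝓖 M (b ∩ c) := h.inter b c h1 hc ⟨y, h4⟩
  have h6 : b.card ≤ (b ∩ c).card := by
    rw [h3]
    exact Nat.find_min' hex ⟨b ∩ c, h5, h4, rfl⟩
  have h7 : b ∩ c = b := Finset.eq_of_subset_of_card_le Finset.inter_subset_left h6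
  rw [← h7]
  exact Finset.inter_subset_right

theorem exists_max (h : Fine 𝓖 M) (x : ℕ) : ∃ b : Finset ℕ, x ∈ b ∧ (∃ y, Pr 𝓖 M b y) ∧
    ∀ b', (∃ y, Pr 𝓖 M b' y) → b ⊆ b' → b' = b := by
  classical
  obtain ⟨n, hn⟩ := h.bdd
  let S : Set ℕ := {m | ∃ b : Finset ℕ, (∃ y, Pr 𝓖 M b y) ∧ x ∈ b ∧ b.card = m}
  have hS : S.Nonempty := by
    obtain ⟨b, hb⟩ := exists_pr h x
    exact ⟨b.card, b, ⟨x, hb⟩, hb.2.1, rfl⟩
  have hB : BddAbove S := by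
    refine ⟨n, ?_⟩
    rintro m ⟨b, ⟨y, hy⟩, _, rfl⟩
    obtain ⟨c, h1, h2, h3⟩ := hn y
    exact (Finset.card_le_card (hy.2.2 c h1 h2)).trans h3
  obtain ⟨b, h1, h2, h3⟩ := Nat.sSup_mem hS hB
  refine ⟨b, h2, h1, fun b' hb' hbb => ?_⟩
  symm
  apply Finset.eq_of_subset_of_card_le hbb
  rw [h3]
  exact le_csSup hB ⟨b', hb', hbb h2, rfl⟩

theorem s_CEX : S_CEX := by
  classical
  intro a K 𝓖 M h
  let 𝓜 : Set (Finset ℕ) := {b | (∃ y, Pr 𝓖 M b y) ∧ ∀ b', (∃ y, Pr 𝓖 M b' y) → b ⊆ b' → b' = b}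
  have hcov : ∀ x, ∃ b ∈ 𝓜, x ∈ b := by
    intro x
    obtain ⟨b, h1, h2, h3⟩ := exists_max h x
    exact ⟨b, ⟨h2, h3⟩, h1⟩
  have hinf : 𝓜.Infinite := by
    intro hfin
    have h1 : (⋃ b ∈ 𝓜, (b : Set ℕ)).Finite := hfin.biUnion fun b _ => b.finite_toSet
    have h2 : (⋃ b ∈ 𝓜, (b : Set ℕ)) = univ := by
      rw [eq_univ_iff_forall]
      intro x
      obtain ⟨b, hb, hx⟩ := hcov x
      exact mem_biUnion hb hx
    rw [h2] at h1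
    exact infinite_univ h1
  have : Infinite 𝓜 := hinf.to_subtype
  obtain ⟨φ⟩ : Nonempty (ℕ ≃ 𝓜) := nonempty_equiv_of_countable
  have hl : ∀ i, lst (Encodable.encode (φ i).1.toList) = (φ i).1.toList := fun i => lst_encode _
  refine ⟨fun i => Encodable.encode (φ i).1.toList, ⟨fun i => ?_, fun i => ?_, fun i j hij => ?_,
    fun x => ?_⟩⟩
  · rw [hl]
    exact Finset.nodup_toList _
  · rw [hl, Finset.toList_toFinset]
    exact (φ i).2.1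
  · rw [hl, hl, Finset.toList_toFinset, Finset.toList_toFinset] at hij
    have h1 := (φ i).2.2 _ (φ j).2.1 hij
    exact φ.injective (Subtype.ext h1.symm)
  · obtain ⟨b, hb, hx⟩ := hcov x
    refine ⟨φ.symm ⟨b, hb⟩, ?_⟩
    rw [hl, Equiv.apply_symm_apply, Finset.mem_toList]
    exact hx

end Pool.Agent.L7h76.GB
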