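import Pool.Agent.L7h71.GB.Stm

/-!
# The code is unique up to isomorphism
-/

set_option autoImplicit false

namespace Pool.Agent.L7h76.GB

open Set Function Pool.Agent.L7h71.GB
open Pool.Agent.L7h66.UA (XS XIso XYo XDich)

variable {a : ℕ → ℕ} {K : ℕ → Type} {𝓖 : FamG a K} {M N : XS a K ℕ}

theorem emb_equiv (σ : ℕ ≃ ℕ) (hσ : ∀ i (x : Fin (a i) → ℕ), N i (σ ∘ x) = M i x) (b : Set ℕ) :
    Emb M N σ b := ⟨σ.injective.injOn, fun i x _ => hσ i x⟩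

theorem emb_symm (σ : ℕ ≃ ℕ) (hσ : ∀ i (x : Fin (a i) → ℕ), N i (σ ∘ x) = M i x) (i : ℕ)
    (x : Fin (a i) → ℕ) : M i (σ.symm ∘ x) = N i x := by
  rw [← hσ i (σ.symm ∘ x), ← Function.comp_assoc, Equiv.self_comp_symm, Function.id_comp]

theorem pr_image (h : S_GDL) (σ : ℕ ≃ ℕ) (hσ : ∀ i (x : Fin (a i) → ℕ), N i (σ ∘ x) = M i x)
    {b : Finset ℕ} {y : ℕ} (hb : Pr 𝓖 M b y) : Pr 𝓖 N (b.image σ) (σ y) := by
  classical
  obtain ⟨h1, h2, h3⟩ := hb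
  refine ⟨((h a K 𝓖).1 N M σ b (emb_equiv σ hσ _)).2 h1, Finset.mem_image_of_mem _ h2, ?_⟩
  intro c hc hyc
  have h4 : Gd 𝓖 M (c.image σ.symm) :=
    ((h a K 𝓖).1 M N σ.symm c (emb_equiv σ.symm (emb_symm σ hσ) _)).2 hc
  have h5 : b ⊆ c.image σ.symm := h3 _ h4 (Finset.mem_image.2 ⟨σ y, hyc, σ.symm_apply_apply y⟩)
  intro z hz
  obtain ⟨w, hw, rfl⟩ := Finset.mem_image.1 hz
  obtain ⟨v, hv, hvw⟩ := Finset.mem_image.1 (h5 hw)
  rw [← hvw, Equiv.apply_symm_apply]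
  exact hv

theorem sub_block (h : S_GDL) (σ : ℕ ≃ ℕ) (hσ : ∀ i (x : Fin (a i) → ℕ), N i (σ ∘ x) = M i x)
    {ρ ρ' : ℕ → ℕ} (hρ : Pres 𝓖 M ρ) (hρ' : Pres 𝓖 N ρ') (i : ℕ) :
    ∃ j, (lst (ρ i)).toFinset.image σ ⊆ (lst (ρ' j)).toFinset := by
  classical
  obtain ⟨y, hy⟩ := hρ.prime i
  obtain ⟨j, hj⟩ := hρ'.cover (σ y)
  obtain ⟨y', hy'⟩ := hρ'.prime j
  exact ⟨j, (pr_image h σ hσ hy).2.2 _ hy'.1 (List.mem_toFinset.2 hj)⟩

theorem eq_block (h : S_GDL) (σ : ℕ ≃ ℕ) (hσ : ∀ i (x : Fin (a i) → ℕ), N i (σ ∘ x) = M i x)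
    {ρ ρ' : ℕ → ℕ} (hρ : Pres 𝓖 M ρ) (hρ' : Pres 𝓖 N ρ') (i : ℕ) :
    ∃ j, (lst (ρ i)).toFinset.image σ = (lst (ρ' j)).toFinset := by
  classical
  obtain ⟨j, hj⟩ := sub_block h σ hσ hρ hρ' i
  obtain ⟨k, hk⟩ := sub_block h σ.symm (emb_symm σ hσ) hρ' hρ j
  have h1 : (lst (ρ i)).toFinset ⊆ (lst (ρ k)).toFinset := by
    intro z hz
    have h2 := hk (Finset.mem_image_of_mem σ.symm (hj (Finset.mem_image_of_mem σ hz)))
    rwa [Equiv.symm_apply_apply] at h2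
  have h3 := hρ.anti i k h1
  subst h3
  refine ⟨j, Finset.Subset.antisymm hj fun z hz => ?_⟩
  have h4 := Finset.mem_image_of_mem σ (hk (Finset.mem_image_of_mem σ.symm hz))
  rwa [Equiv.apply_symm_apply] at h4

theorem s_UNI (hT : S_TAU) (hG : S_GDL) : S_UNI := by
  classical
  intro a K _ _ 𝓖 M N ρ ρ' hρ hρ' hiso
  obtain ⟨σ, hσ⟩ := hiso
  choose π hπ using eq_block hG σ hσ hρ hρ'
  have hinj : Injective π := by
    intro i i' hii
    have h1 : (lst (ρ i)).toFinset.image σ = (lst (ρ i')).toFinset.image σ := by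
      rw [hπ, hπ, hii]
    have h2 := Finset.image_injective σ.injective h1
    exact hρ.anti i i' (by rw [h2])
  have hsurj : Surjective π := by
    intro j
    obtain ⟨i, hi⟩ := eq_block hG σ.symm (emb_symm σ hσ) hρ' hρ j
    refine ⟨i, hρ'.anti _ _ ?_⟩
    rw [← hπ i, ← hi]
    intro z hz
    obtain ⟨w, hw, rfl⟩ := Finset.mem_image.1 hz
    obtain ⟨v, hv, rfl⟩ := Finset.mem_image.1 hw
    rwa [Equiv.apply_symm_apply]
  refine ⟨Equiv.ofBijective π ⟨hinj, hsurj⟩, fun m x => ?_⟩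
  show tau N (List.ofFn fun j => lst (ρ' (π (x j)))) = tau M (List.ofFn fun j => lst (ρ (x j)))
  have hne : ∀ i, lst (ρ i) ≠ [] := by
    intro i h0
    obtain ⟨y, hy⟩ := hρ.prime i
    have := hy.2.1
    rw [h0] at this
    simp at this
  have hne' : ∀ i, lst (ρ' i) ≠ [] := by
    intro i h0
    obtain ⟨y, hy⟩ := hρ'.prime i
    have := hy.2.1
    rw [h0] at this
    simp at this
  symm
  refine (hT a K M N _ _ ?_ ?_ ?_ ?_).2 ⟨σ, emb_equiv σ hσ _, ?_⟩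
  · intro h0
    have := congrArg List.length h0
    simp at this
  · simp
  · intro l hl
    obtain ⟨j, rfl⟩ := (List.mem_ofFn' _ _).1 hl
    exact hne _
  · intro l hl
    obtain ⟨j, rfl⟩ := (List.mem_ofFn' _ _).1 hl
    exact hne' _
  · rw [List.forall₂_iff_get]
    refine ⟨by simp, fun i h1 h2 => ?_⟩
    rw [List.get_ofFn, List.get_ofFn]
    rw [List.perm_ext_iff_of_nodup ((hρ.nodup _).map σ.injective) (hρ'.nodup _)]
    intro z
    rw [← List.mem_toFinset, ← List.mem_toFinset, ← hπ]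
    simp only [List.mem_toFinset, List.mem_map, Finset.mem_image]
    exact Iff.rfl

end Pool.Agent.L7h76.GB
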