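import Pool.Agent.L7h71.GB.Stm3
import Pool.Agent.H566W.Ana

set_option autoImplicit false

/-!
# Project GB, part TTH: thinning out
-/

namespace Pool.Agent.L7h76.GB

open Set Function Filter Topology MeasureTheory Pool.Agent.L7h71.GB

/-- The Polish space of the permutations of `ℕ` with their inverses. -/
def PP : Set ((ℕ → ℕ) × (ℕ → ℕ)) := {p | (∀ n, p.1 (p.2 n) = n) ∧ ∀ n, p.2 (p.1 n) = n}

theorem PP_closed : IsClosed PP := by
  have key : ∀ n : ℕ, Continuous fun p : (ℕ → ℕ) × (ℕ → ℕ) => p.1 (p.2 n) := by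
    intro n
    have h1 : Continuous fun q : (ℕ → ℕ) × ℕ => q.1 q.2 :=
      continuous_prod_of_discrete_right.2 fun m => continuous_apply m
    exact h1.comp (continuous_fst.prodMk ((continuous_apply n).comp continuous_snd))
  have key' : ∀ n : ℕ, Continuous fun p : (ℕ → ℕ) × (ℕ → ℕ) => p.2 (p.1 n) := fun n =>
    (key n).comp continuous_swap
  have h1 : PP = (⋂ n, {p | p.1 (p.2 n) = n}) ∩ ⋂ n, {p | p.2 (p.1 n) = n} := by
    ext p
    simp only [mem_inter_iff, mem_iInter]
    exact Iff.rfl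
  rw [h1]
  exact (isClosed_iInter fun n => isClosed_eq (key n) continuous_const).inter
    (isClosed_iInter fun n => isClosed_eq (key' n) continuous_const)

/-- The permutation of a point of `PP`. -/
def pm (p : PP) : Equiv.Perm ℕ := ⟨p.1.1, p.1.2, p.2.2, p.2.1⟩

section

variable {G X : Type} [Group G] [MulAction G X] [TopologicalSpace X]
  {φ : Equiv.Perm ℕ →* G}

theorem act_cont (hA : Act G X φ) {Y : Type} [TopologicalSpace Y] {u : Y → X}
    (hu : Continuous u) : Continuous fun q : Y × PP => φ (pm q.2) • u q.1 := by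
  rw [continuous_iff_continuousAt]
  rintro ⟨y, p⟩
  rw [ContinuousAt, tendsto_nhds]
  intro U hU hx
  obtain ⟨F, V, hV, hxV, h⟩ := hA.act (pm p) (u y) U hU hx
  have h1 : ∀ᶠ q : Y × PP in 𝓝 (y, p), u q.1 ∈ V :=
    (hu.comp continuous_fst).continuousAt.eventually (hV.mem_nhds hxV)
  have h2 : ∀ᶠ q : Y × PP in 𝓝 (y, p), ∀ n ∈ F, pm q.2 n = pm p n := by
    rw [Filter.eventually_all_finset]
    intro n _
    have hc : Continuous fun q : Y × PP => q.2.1.1 n :=
      (continuous_apply n).comp (continuous_fst.comp (continuous_subtype_val.comp continuous_snd))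
    exact hc.continuousAt.eventually ((isOpen_discrete ({p.1.1 n} : Set ℕ)).mem_nhds (mem_singleton _))
  filter_upwards [h1, h2] with q hq1 hq2
  exact h (pm q.2) hq2 (u q.1) hq1

theorem tth_analytic [T2Space X] (hA : Act G X φ) (r : G) {f : (ℕ → Bool) → X}
    (hf : Continuous f) :
    AnalyticSet {p : (ℕ → Bool) × (ℕ → Bool) | ∃ σ, φ σ • r • f p.1 = f p.2} := by
  have hP : PolishSpace PP := PP_closed.polishSpace
  have hQ : PolishSpace (((ℕ → Bool) × (ℕ → Bool)) × PP) := {}
  let C : Set (((ℕ → Bool) × (ℕ → Bool)) × PP) := {q | φ (pm q.2) • r • f q.1.1 = f q.1.2}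
  have hC : IsClosed C :=
    isClosed_eq (act_cont hA (u := fun y : (ℕ → Bool) × (ℕ → Bool) => r • f y.1)
      ((hA.cont r).comp (hf.comp continuous_fst))) (hf.comp (continuous_snd.comp continuous_fst))
  have h4 : AnalyticSet (Prod.fst '' C) := hC.analyticSet.image_of_continuous continuous_fst
  have h5 : {p : (ℕ → Bool) × (ℕ → Bool) | ∃ σ, φ σ • r • f p.1 = f p.2} = Prod.fst '' C := by
    ext ⟨c, d⟩
    constructor
    · rintro ⟨σ, hσ⟩
      exact ⟨((c, d), ⟨(σ, σ.symm), fun n => σ.apply_symm_apply n,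
        fun n => σ.symm_apply_apply n⟩), hσ, rfl⟩
    · rintro ⟨⟨⟨c', d'⟩, p⟩, h1, h⟩
      simp only [Prod.mk.injEq] at h
      obtain ⟨rfl, rfl⟩ := h
      exact ⟨pm p, h1⟩
  rw [h5]
  exact h4

omit [TopologicalSpace X] in
theorem tth_countable (m : ℕ) (r : G) {f : (ℕ → Bool) → X}
    (hinj : ∀ c d, (∃ τ : Equiv.Perm ℕ, (∀ i < m, τ i = i) ∧ φ τ • f c = f d) → c = d)
    (c : ℕ → Bool) : {d : ℕ → Bool | ∃ σ, φ σ • r • f c = f d}.Countable := by
  classical
  let e : (ℕ → Bool) → Equiv.Perm ℕ := fun d =>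
    if h : ∃ σ, φ σ • r • f c = f d then h.choose else 1
  have he : ∀ d, (∃ σ, φ σ • r • f c = f d) → φ (e d) • r • f c = f d := by
    intro d hd
    simp only [e, dif_pos hd]
    exact hd.choose_spec
  refine Set.countable_of_injective_of_countable_image (f := fun d (i : Fin m) =>
    (e d).symm (i : ℕ)) ?_ (Set.to_countable _)
  intro d hd d' hd' hdd
  refine hinj d d' ⟨(e d') * (e d)⁻¹, fun i hi => ?_, ?_⟩
  · have h1 : (e d).symm i = (e d').symm i := congrFun hdd ⟨i, hi⟩
    show e d' ((e d).symm i) = i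
    rw [h1, Equiv.apply_symm_apply]
  · rw [map_mul, map_inv, mul_smul, ← he d hd, inv_smul_smul]
    exact he d' hd'

end

theorem s_TTH : S_TTH := by
  intro G X _ _ _ _ _ φ hA m f hf hinj
  obtain ⟨R, hR⟩ := hA.index
  have h0 : ∀ c d, (∃ g : G, g • f c = f d) ↔ ∃ i, ∃ σ, φ σ • R i • f c = f d := by
    intro c d
    constructor
    · rintro ⟨g, hg⟩
      obtain ⟨i, σ, rfl⟩ := hR g
      exact ⟨i, σ, by rw [← mul_smul]; exact hg⟩
    · rintro ⟨i, σ, h⟩
      exact ⟨φ σ * R i, by rw [mul_smul]; exact h⟩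
  obtain ⟨h, hh, hh2⟩ := Pool.Agent.H566W.perfect_independent
    (fun c d => ∃ g : G, g • f c = f d) (by
      have h1 : {p : (ℕ → Bool) × (ℕ → Bool) | ∃ g : G, g • f p.1 = f p.2} =
          ⋃ i, {p : (ℕ → Bool) × (ℕ → Bool) | ∃ σ, φ σ • R i • f p.1 = f p.2} := by
        ext p
        rw [mem_iUnion]
        exact h0 p.1 p.2
      rw [h1]
      exact AnalyticSet.iUnion fun i => tth_analytic hA (R i) hf)
    (fun c => by
      have h1 : {d | ∃ g : G, g • f c = f d} = ⋃ i, {d | ∃ σ, φ σ • R i • f c = f d} := by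
        ext d
        rw [mem_iUnion]
        exact h0 c d
      rw [h1]
      exact countable_iUnion fun i => tth_countable m (R i) hinj c)
  refine ⟨h, hh, fun c d hcd => ?_⟩
  by_contra hne
  exact hh2 c d hne hcd

end Pool.Agent.L7h76.GB

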